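import Pool.Agent.Helper87.GE.Defs
import Pool.Agent.Helper59.MF.Law
import Pool.Agent.Helper18.GP.DimU
import Pool.Agent.Helper18.GP.Upper

/-!
# GE (exact laws): the upper bound (block E11)
-/

set_option autoImplicit false
open MeasureTheory Set Filter Topology
open Pool.Agent.Helper78.KD
open Pool.Agent.Helper82.FK (e)
open Pool.Agent.Helper18.GP (gp nm kap KK Sp)

namespace Pool.Agent.GE

private lemma gp_per82 (H : ℕ) (c : ℤ → ℂ) (t : ℝ) : gp H c (t + 1) = gp H c t := by
  unfold gp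
  refine Finset.sum_congr rfl fun h _ => ?_
  congr 1
  unfold e
  have h1 : ((2 * Real.pi * (h * (t + 1)) : ℝ) : ℂ) * Complex.I =
      ((2 * Real.pi * (h * t) : ℝ) : ℂ) * Complex.I + h * (2 * Real.pi * Complex.I) := by
    push_cast
    ring
  rw [h1, Complex.exp_add, Complex.exp_int_mul_two_pi_mul_I, mul_one]

/-- a positive trigonometric polynomial is bounded below -/
theorem min82 {H : ℕ} {c : ℤ → ℂ} {g : ℝ → ℝ} (hg : ∀ t, gp H c t = g t) (hg0 : ∀ t, 0 < g t) :
    ∃ m : ℝ, 0 < m ∧ ∀ t, m ≤ g t := by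
  have hgc : Continuous g := by
    have h4 : g = fun t => (gp H c t).re := by
      funext t
      rw [hg t, Complex.ofReal_re]
    rw [h4]
    exact Complex.continuous_re.comp (Pool.Agent.Helper18.GP.gp_cont H c)
  have hper : Function.Periodic g 1 := by
    intro t
    have h1 := gp_per82 H c t
    rw [hg, hg] at h1
    exact_mod_cast h1
  obtain ⟨x, _, hx⟩ := isCompact_Icc.exists_isMinOn (nonempty_Icc.mpr (zero_le_one (α := ℝ))) hgc.continuousOn
  refine ⟨g x, hg0 x, fun t => ?_⟩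
  obtain ⟨y, hy, hty⟩ := hper.exists_mem_Ico₀ zero_lt_one t
  rw [hty]
  exact hx ⟨hy.1, hy.2.le⟩

/-- its logarithm is Lipschitz -/
theorem log_lip82 {H : ℕ} {c : ℤ → ℂ} {g : ℝ → ℝ} (hg : ∀ t, gp H c t = g t) (hg0 : ∀ t, 0 < g t) :
    ∃ K : ℝ, 0 ≤ K ∧ ∀ t u, |Real.log (g t) - Real.log (g u)| ≤ K * |t - u| := by
  obtain ⟨m, hm, hmg⟩ := min82 hg hg0
  refine ⟨2 * Real.pi * H * nm H c / m, ?_, fun t u => ?_⟩
  · have := Pool.Agent.Helper18.GP.nm_nonneg H c
    have hpi := Real.pi_pos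
    positivity
  have key : ∀ t u, Real.log (g t) - Real.log (g u) ≤ 2 * Real.pi * H * nm H c / m * |t - u| := by
    intro t u
    have h1 := Pool.Agent.Helper18.GP.gp_lip hg t u
    have h2 : Real.log (g t) - Real.log (g u) ≤ g t / g u - 1 := by
      rw [← Real.log_div (hg0 t).ne' (hg0 u).ne']
      exact Real.log_le_sub_one_of_pos (div_pos (hg0 t) (hg0 u))
    have h3 : g t / g u - 1 = (g t - g u) / g u := by
      rw [sub_div, div_self (hg0 u).ne']
    rw [h3] at h2
    refine h2.trans ?_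
    calc (g t - g u) / g u ≤ |g t - g u| / g u := div_le_div_of_nonneg_right (le_abs_self _) (hg0 u).le
      _ ≤ |g t - g u| / m := div_le_div_of_nonneg_left (abs_nonneg _) hm (hmg u)
      _ ≤ (2 * Real.pi * H * nm H c * |t - u|) / m := div_le_div_of_nonneg_right h1 hm.le
      _ = _ := by ring
  rw [abs_le]
  constructor
  · have := key u t
    rw [abs_sub_comm u t] at this
    linarith
  · exact key t u

theorem kE_le_kap {a : ℝ} (ha : 1 < a) {H : ℝ} (hH : 1 ≤ H) : kE a H ≤ kap a H := by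
  have hs : 1 < √a := Real.lt_sqrt_of_sq_lt (by simpa using ha)
  have hls : 0 < Real.log (√a) := Real.log_pos hs
  have hinv : (√a)⁻¹ < 1 := inv_lt_one_of_one_lt₀ hs
  have hinv0 : 0 < (√a)⁻¹ := by positivity
  set R := (√a)⁻¹ with hR
  have h1 : H / (1 - R) ≤ 5 * H / (1 - R) ^ 2 := by
    rw [div_le_div_iff₀ (by linarith) (by nlinarith)]
    have h2 : 0 < 1 - R := by linarith
    nlinarith [mul_pos h2 (by linarith : (0 : ℝ) < H), mul_pos h2 h2]
  have h2 : KK a H ≤ KE a H := by
    unfold KK KE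
    rw [← hR]
    have h3 : Real.log (H / (1 - R)) / Real.log (√a) ≤ Real.log (5 * H / (1 - R) ^ 2) / Real.log (√a) := by
      apply div_le_div_of_nonneg_right _ hls.le
      apply Real.log_le_log _ h1
      apply div_pos (by linarith) (by linarith)
    have h4 := Nat.floor_le_floor h3
    omega
  unfold kE kap
  have h3 : (KK a H : ℝ) ≤ KE a H := by exact_mod_cast h2
  apply one_div_le_one_div_of_le (by positivity)
  nlinarith [(Nat.cast_nonneg (KE a H) : (0 : ℝ) ≤ KE a H)]

/-- E11 (chernoff with `φ = log g`, `m = 1`; `kE a H ≤ kap a H`) -/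
theorem upper_E {a b : ℝ} (ha : 1 < a) (hab : a < b) {H : ℕ} (hH : 1 ≤ H) {c : ℤ → ℂ} {g : ℝ → ℝ}
    (hg : ∀ t, gp H c t = g t) (hc : c 0 = 1) (hg0 : ∀ t, 0 < g t) (hW : nm H c < a ^ (kE a H)) (s : ℕ → ℝ) :
    dimH {x : ℝ | x ∈ Ioo a b ∧ Pool.Agent.Helper59.MF.HasLaw (fun n => x ^ (n + 1) + s n) g} ≤
      ENNReal.ofReal (1 - (∫ t in (0 : ℝ)..1, g t * Real.log (g t)) / Real.log b) := by
  have hgc : Continuous g := by
    have h4 : g = fun t => (gp H c t).re := by
      funext t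
      rw [hg t, Complex.ofReal_re]
    rw [h4]
    exact Complex.continuous_re.comp (Pool.Agent.Helper18.GP.gp_cont H c)
  have hper : ∀ t, g (t + 1) = g t := by
    intro t
    have h1 := gp_per82 H c t
    rw [hg, hg] at h1
    exact_mod_cast h1
  obtain ⟨K, hK, hlip⟩ := log_lip82 hg hg0
  set D : ℝ := ∫ t in (0 : ℝ)..1, g t * Real.log (g t) with hD
  have hH' : (1 : ℝ) ≤ (H : ℝ) := by exact_mod_cast hH
  have hnm : nm H c < 1 * a ^ (kap a H) := by
    rw [one_mul]
    exact hW.trans_le (Real.rpow_le_rpow_of_exponent_le ha.le (kE_le_kap ha hH'))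
  have key : ∀ h : ℝ, h < D → dimH {x : ℝ | x ∈ Ioo a b ∧ Pool.Agent.Helper59.MF.HasLaw (fun n => x ^ (n + 1) + s n) g} ≤
      ENNReal.ofReal (1 - h / Real.log b) := by
    intro h hh
    have h1 := Pool.Agent.Helper18.GP.chernoff ha hab H hH c 1 g (fun t => Real.log (g t)) K one_pos (by simpa using hc) hnm hg
      (fun t => by rw [Real.exp_log (hg0 t)]) hlip s h
    rw [Real.log_one, sub_zero] at h1
    refine (dimH_mono ?_).trans h1
    rintro x ⟨hx, hlaw⟩
    refine ⟨⟨hx.1.le, hx.2.le⟩, ?_⟩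
    have h2 := hlaw (fun t => Real.log (g t)) (hgc.log fun t => (hg0 t).ne') (fun t => by simp only [hper])
    have h3 : ∫ t in (0 : ℝ)..1, Real.log (g t) * g t = D := by
      rw [hD]
      exact intervalIntegral.integral_congr fun t _ => mul_comm _ _
    rw [h3] at h2
    apply Eventually.frequently
    filter_upwards [h2.eventually_const_lt hh, eventually_gt_atTop 0] with N hN hN0
    have hN' : (0 : ℝ) < N := by exact_mod_cast hN0
    rw [lt_div_iff₀ hN'] at hN
    exact hN.le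
  have ht : Tendsto (fun n : ℕ => ENNReal.ofReal (1 - (D - 1 / ((n : ℝ) + 1)) / Real.log b)) atTop
      (𝓝 (ENNReal.ofReal (1 - D / Real.log b))) := by
    apply ENNReal.tendsto_ofReal
    have h1 : Tendsto (fun n : ℕ => 1 / ((n : ℝ) + 1)) atTop (𝓝 0) := tendsto_one_div_add_atTop_nhds_zero_nat
    have h2 := (((tendsto_const_nhds (x := D)).sub h1).div_const (Real.log b)).const_sub 1
    simpa using h2
  exact ge_of_tendsto' ht fun n => key _ (by
    have : (0 : ℝ) < 1 / ((n : ℝ) + 1) := by positivity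
    linarith)

end Pool.Agent.GE
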